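import Pool.Agent.FLY.StY

/-!
# Sharpness of the character bound for `GL_n(q)` (MP_5b5212_al): statements

The exponent `1/m` in `FLX.S_XMB` is best possible for every `m ≥ 2` and every `q`. `S_X` is the statement of module `X`; the
module proves `theorem t_X : M_X` (or `t_X : S_X` if there is no `M_X`) in `Pool/Agent/FLZ/X.lean`, namespace `FLZ`, importing this
file. `q = Nat.card F`.
-/

namespace FLZ

open RSF FL0 SRJ Polynomial Pool.Agent.Lib_helper13

noncomputable section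

/-- the number of the fixed vectors: the permutation character of `GL_n` on `F^n` -/
def fx {n : ℕ} {F : Type} [Field F] (g : GL (Fin n) F) : ℕ :=
  Nat.card {v : Fin n → F // g.1.mulVec v = v}

/-- **SHA**. Let `n = m k`, `σ` the permutation `i ↦ i + k (mod n)` of `Fin n` (or transport from `Fin m × Fin k`, `(a, b) ↦ (a + 1, b)`), all
cycles have the length `m`, there are `k` cycles; `x` the permutation matrix. `x^m = 1`. A matrix `B` commutes with `x` iff
`B (σ i) (σ j) = B i j`: `B` is constant on the orbits of `σ` on the pairs, all orbits have `m` elements (`σ^t` has no fixed point for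
`0 < t < m`), so there are `n²/m = m k²` orbits. `x v = v` iff `v` is constant on the `k` cycles. (With `Fin n ≃ Fin m × Fin k`: `B` is
determined by the rows `(0, b)`, which are arbitrary.) -/
def S_SHA : Prop :=
  ∀ (m k : ℕ) (F : Type) [Field F] [Finite F], 1 ≤ m →
    ∃ x : GL (Fin (m * k)) F, x ^ m = 1 ∧ cN x.1 = Nat.card F ^ (m * k ^ 2) ∧ fx x = Nat.card F ^ k

/-- **SHB**. `fx` is the character of the permutation representation of `GL_n` on the functions on `F^n`. `∑_g fx(g)²` is the number of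
the `(g, v, w)` with `g v = v`, `g w = w`, so `|GL_n|` times the number of the orbits on the pairs `(v, w)` (Burnside). The orbits:
`(0, 0)`; `(v, c v)`, `v ≠ 0`, one for each `c ∈ F`; `(0, w)`, `w ≠ 0`; `v, w` linearly independent. At most `q + 3`. -/
def S_SHB : Prop :=
  ∀ (n : ℕ) (F : Type) [Field F] [Fintype F] [DecidableEq F],
    IsChr (fun g : GL (Fin n) F => (fx g : ℂ)) ∧
    ∑ g : GL (Fin n) F, fx g ^ 2 ≤ (Nat.card F + 3) * Nat.card (GL (Fin n) F)

/-- **SHC**. `π = ∑ c_X X` over the irreducible characters, `c_X` natural numbers (`IsChr.exists_ip`, expansion of class functions),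
`∑ c_X² = (1/|G|) ∑ |π|² ≤ N`, so `∑ c_X ≤ N`, `|π x| ≤ ∑ c_X |X x|`, so some `X` with `c_X ≠ 0` satisfies `|π x| ≤ N |X x|`
(if all these `|X x| < |π x| / N` then the sum is smaller than `|π x|`; if `π x = 0` and there is no such `X` take `X = 1`); and
`X 1 ≤ π 1` as `π 1 = ∑ c_X X 1`. -/
def S_SHC : Prop :=
  ∀ (G : Type) [Group G] [Fintype G] (π : G → ℂ) (N : ℕ), IsChr π → 1 ≤ N → π 1 ≠ 0 →
    ∑ g, ‖π g‖ ^ 2 ≤ (N : ℝ) * Nat.card G → ∀ x : G,
      ∃ X : G → ℂ, IsIrr X ∧ (X 1).re ≤ (π 1).re ∧ ‖π x‖ ≤ N * ‖X x‖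

/-- **SHD**, the theorem: `S_SHA`, `S_SHB`, `S_SHC` with `N = q + 3`, `n = m k`. `|X x| ≥ q^k / (q + 3) ≥ q^(k-3)` (`q + 3 ≤ q³`), `X 1 ≤ q^n`. If `k ≥ 4` then
`|X x| > 1`, so `X 1 ≠ 1` (a linear character has absolute value `1`; `|X x| ≤ X 1`). `X 1 ≥ |X x| ≥ q^(k-3)`, so
`(X 1)^ε ≥ q^(ε (k-3)) ≥ q³ ≥ q + 3` for `k ≥ 3 + 3/ε`, and `(X 1)^(1/m - ε) = (X 1)^(1/m) / (X 1)^ε ≤ q^k / (q + 3) ≤ |X x|`. -/
def S_SHD : Prop :=
  ∀ m : ℕ, 2 ≤ m → ∀ ε : ℝ, 0 < ε → ∃ r : ℕ, ∀ n, r ≤ n → m ∣ n →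
    ∀ (F : Type) [Field F] [Fintype F] [DecidableEq F],
      ∃ x : GL (Fin n) F, x ^ m = 1 ∧ cN x.1 = Nat.card F ^ (n ^ 2 / m) ∧
        ∃ X : GL (Fin n) F → ℂ, IsIrr X ∧ X 1 ≠ 1 ∧ (X 1).re ^ (1 / (m : ℝ) - ε) ≤ ‖X x‖

def M_SHD : Prop := S_SHA → S_SHB → S_SHC → S_SHD

end

end FLZ
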