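import Mathlib
import Pool.Agent.FLZ.StZ

set_option autoImplicit false

/-! `SHA`: the permutation matrix with `k` cycles of length `m`, its centralizer and its fixed vectors. -/

namespace FLZ

open RSF FL0 SRJ Polynomial Pool.Agent.Lib_helper13

open Fin.CommRing in
/-- the residue of a natural number -/
def sha_c (m : ℕ) [NeZero m] (n : ℕ) : Fin m := (n : Fin m)

open Fin.CommRing in
theorem sha_c_zero (m : ℕ) [NeZero m] : sha_c m 0 = 0 := Nat.cast_zero

open Fin.CommRing in
theorem sha_c_succ (m : ℕ) [NeZero m] (n : ℕ) : sha_c m (n + 1) = sha_c m n + 1 :=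
  Nat.cast_succ n

open Fin.CommRing in
theorem sha_c_val (m : ℕ) [NeZero m] (a : Fin m) : sha_c m a.val = a :=
  Fin.cast_val_eq_self a

open Fin.CommRing in
theorem sha_c_self (m : ℕ) [NeZero m] : sha_c m m = 0 := by
  unfold sha_c
  simp

/-- the permutation matrices -/
def sha_P (n : ℕ) (F : Type) [Field F] : Equiv.Perm (Fin n) →* Matrix (Fin n) (Fin n) F where
  toFun τ := Matrix.of fun i j => if i = τ j then 1 else 0
  map_one' := by
    ext i j
    change (if i = j then (1 : F) else 0) = (1 : Matrix (Fin n) (Fin n) F) i j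
    rw [Matrix.one_apply]
  map_mul' τ ρ := by
    ext i j
    change (if i = τ (ρ j) then (1 : F) else 0) =
      ∑ l, (if i = τ l then (1 : F) else 0) * (if l = ρ j then (1 : F) else 0)
    simp only [mul_ite, mul_one, mul_zero, Finset.sum_ite_eq', Finset.mem_univ, if_true]

theorem sha_P_apply (n : ℕ) (F : Type) [Field F] (τ : Equiv.Perm (Fin n)) (i j : Fin n) :
    sha_P n F τ i j = if i = τ j then 1 else 0 := rfl

theorem sha_mul_P (n : ℕ) (F : Type) [Field F] (τ : Equiv.Perm (Fin n))
    (B : Matrix (Fin n) (Fin n) F) (i j : Fin n) : (B * sha_P n F τ) i j = B i (τ j) := by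
  simp [Matrix.mul_apply, sha_P_apply]

theorem sha_P_mul (n : ℕ) (F : Type) [Field F] (τ : Equiv.Perm (Fin n))
    (B : Matrix (Fin n) (Fin n) F) (i j : Fin n) : (sha_P n F τ * B) (τ i) j = B i j := by
  simp [Matrix.mul_apply, sha_P_apply]

theorem sha_P_mulVec (n : ℕ) (F : Type) [Field F] (τ : Equiv.Perm (Fin n))
    (v : Fin n → F) (i : Fin n) : (sha_P n F τ).mulVec v (τ i) = v i := by
  simp [Matrix.mulVec, dotProduct, sha_P_apply]

theorem sha_comm_iff (n : ℕ) (F : Type) [Field F] (τ : Equiv.Perm (Fin n))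
    (B : Matrix (Fin n) (Fin n) F) :
    B * sha_P n F τ = sha_P n F τ * B ↔ ∀ i j, B (τ i) (τ j) = B i j := by
  constructor
  · intro h i j
    have h1 := congrFun (congrFun h (τ i)) j
    rw [sha_mul_P, sha_P_mul] at h1
    exact h1
  · intro h
    ext i j
    obtain ⟨i', rfl⟩ := τ.surjective i
    rw [sha_mul_P, sha_P_mul, h]

theorem sha_fix_iff (n : ℕ) (F : Type) [Field F] (τ : Equiv.Perm (Fin n)) (v : Fin n → F) :
    (sha_P n F τ).mulVec v = v ↔ ∀ i, v (τ i) = v i := by
  constructor
  · intro h i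
    have h1 := congrFun h (τ i)
    rw [sha_P_mulVec] at h1
    exact h1.symm
  · intro h
    funext i
    obtain ⟨i', rfl⟩ := τ.surjective i
    rw [sha_P_mulVec, h]

/-- the permutation with `k` cycles of length `m` -/
def sha_t (m k : ℕ) [NeZero m] : Equiv.Perm (Fin (m * k)) :=
  finProdFinEquiv.permCongr ((Equiv.addRight (1 : Fin m)).prodCongr (Equiv.refl (Fin k)))

theorem sha_t_apply (m k : ℕ) [NeZero m] (a : Fin m) (b : Fin k) :
    sha_t m k (finProdFinEquiv (a, b)) = finProdFinEquiv (a + 1, b) := by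
  simp [sha_t, Equiv.permCongr_apply]

theorem sha_t_pow (m k : ℕ) [NeZero m] (n : ℕ) (a : Fin m) (b : Fin k) :
    (sha_t m k ^ n) (finProdFinEquiv (a, b)) = finProdFinEquiv (a + sha_c m n, b) := by
  induction n with
  | zero => simp [sha_c_zero]
  | succ n ih =>
    rw [pow_succ', Equiv.Perm.mul_apply, ih, sha_t_apply, sha_c_succ, add_assoc]

theorem sha_t_m (m k : ℕ) [NeZero m] : sha_t m k ^ m = 1 := by
  ext i
  obtain ⟨⟨a, b⟩, rfl⟩ := finProdFinEquiv.surjective i
  rw [sha_t_pow, sha_c_self, add_zero]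
  simp

/-- the matrices that commute -/
def sha_equiv (m k : ℕ) [NeZero m] (F : Type) [Field F] :
    {B : Matrix (Fin (m * k)) (Fin (m * k)) F //
      B * sha_P (m * k) F (sha_t m k) = sha_P (m * k) F (sha_t m k) * B} ≃
    (Fin k → Fin m × Fin k → F) where
  toFun B b q := B.1 (finProdFinEquiv (0, b)) (finProdFinEquiv q)
  invFun R := ⟨Matrix.of fun i j => R (finProdFinEquiv.symm i).2
      ((finProdFinEquiv.symm j).1 - (finProdFinEquiv.symm i).1, (finProdFinEquiv.symm j).2), by
    rw [sha_comm_iff]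
    intro i j
    obtain ⟨⟨a, b⟩, rfl⟩ := finProdFinEquiv.surjective i
    obtain ⟨⟨c, d⟩, rfl⟩ := finProdFinEquiv.surjective j
    rw [sha_t_apply, sha_t_apply]
    simp only [Matrix.of_apply, Equiv.symm_apply_apply, add_sub_add_right_eq_sub]⟩
  left_inv B := by
    obtain ⟨B, hB⟩ := B
    rw [sha_comm_iff] at hB
    have key : ∀ (n : ℕ) (a c : Fin m) (b d : Fin k),
        B (finProdFinEquiv (a + sha_c m n, b)) (finProdFinEquiv (c + sha_c m n, d)) =
          B (finProdFinEquiv (a, b)) (finProdFinEquiv (c, d)) := by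
      intro n
      induction n with
      | zero => intro a c b d; simp [sha_c_zero]
      | succ n ih =>
        intro a c b d
        rw [← ih a c b d, ← hB (finProdFinEquiv (a + sha_c m n, b)), sha_t_apply, sha_t_apply,
          sha_c_succ, add_assoc, add_assoc]
    ext i j
    obtain ⟨⟨a, b⟩, rfl⟩ := finProdFinEquiv.surjective i
    obtain ⟨⟨c, d⟩, rfl⟩ := finProdFinEquiv.surjective j
    have h1 := key a.val 0 (c - a) b d
    rw [sha_c_val, zero_add, sub_add_cancel] at h1
    simp only [Matrix.of_apply, Equiv.symm_apply_apply]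
    exact h1.symm
  right_inv R := by
    funext b q
    simp only [Matrix.of_apply, Equiv.symm_apply_apply, sub_zero]

/-- the fixed vectors -/
def sha_fequiv (m k : ℕ) [NeZero m] (F : Type) [Field F] :
    {v : Fin (m * k) → F // (sha_P (m * k) F (sha_t m k)).mulVec v = v} ≃ (Fin k → F) where
  toFun v b := v.1 (finProdFinEquiv (0, b))
  invFun w := ⟨fun i => w (finProdFinEquiv.symm i).2, by
    rw [sha_fix_iff]
    intro i
    obtain ⟨⟨a, b⟩, rfl⟩ := finProdFinEquiv.surjective i
    rw [sha_t_apply]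
    simp⟩
  left_inv v := by
    obtain ⟨v, hv⟩ := v
    rw [sha_fix_iff] at hv
    have key : ∀ (n : ℕ) (a : Fin m) (b : Fin k),
        v (finProdFinEquiv (a + sha_c m n, b)) = v (finProdFinEquiv (a, b)) := by
      intro n
      induction n with
      | zero => intro a b; simp [sha_c_zero]
      | succ n ih =>
        intro a b
        rw [← ih a b, ← hv (finProdFinEquiv (a + sha_c m n, b)), sha_t_apply, sha_c_succ,
          add_assoc]
    ext i
    obtain ⟨⟨a, b⟩, rfl⟩ := finProdFinEquiv.surjective i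
    have h1 := key a.val 0 b
    rw [sha_c_val, zero_add] at h1
    simp only [Equiv.symm_apply_apply]
    exact h1.symm
  right_inv w := by
    funext b
    simp

theorem t_SHA : S_SHA := by
  intro m k F _ _ hm
  have : NeZero m := ⟨by omega⟩
  refine ⟨(sha_P (m * k) F).toHomUnits (sha_t m k), ?_, ?_, ?_⟩
  · rw [← map_pow, sha_t_m, map_one]
  · change Nat.card {B : Matrix (Fin (m * k)) (Fin (m * k)) F //
      B * sha_P (m * k) F (sha_t m k) = sha_P (m * k) F (sha_t m k) * B} = _
    rw [Nat.card_congr (sha_equiv m k F)]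
    simp only [Nat.card_fun, Nat.card_prod, Nat.card_eq_fintype_card (α := Fin m),
      Nat.card_eq_fintype_card (α := Fin k), Fintype.card_fin]
    rw [← pow_mul]
    congr 1
    ring
  · change Nat.card {v : Fin (m * k) → F // (sha_P (m * k) F (sha_t m k)).mulVec v = v} = _
    rw [Nat.card_congr (sha_fequiv m k F)]
    simp only [Nat.card_fun, Nat.card_eq_fintype_card (α := Fin k), Fintype.card_fin]

end FLZ
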