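import Mathlib
import Pool.Agent.FLZ.StZ

set_option autoImplicit false

/-! `SHB`: the permutation character of `GL_n(F)` on `F^n` and its norm (Burnside, orbits on the pairs of vectors). -/

namespace FLZ

open RSF FL0 SRJ Polynomial Pool.Agent.Lib_helper13

/-- the permutation representation on the functions -/
noncomputable def shb_rep {G X : Type} [Group G] [MulAction G X] :
    Representation ℂ G (X → ℂ) where
  toFun g :=
    { toFun := fun f x => f (g⁻¹ • x)
      map_add' := fun f f' => rfl
      map_smul' := fun c f => rfl }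
  map_one' := by
    ext f x
    simp
  map_mul' g h := by
    ext f x
    simp [mul_smul]

theorem shb_char {G X : Type} [Group G] [MulAction G X] [Fintype X] (g : G) :
    (shb_rep (G := G) (X := X)).character g = (Nat.card {x : X // g • x = x} : ℂ) := by
  classical
  have h1 : (shb_rep (G := G) (X := X)).character g =
      LinearMap.trace ℂ (X → ℂ) (shb_rep (G := G) (X := X) g) := rfl
  rw [h1, LinearMap.trace_eq_matrix_trace ℂ (Pi.basisFun ℂ X), Matrix.trace]
  have h2 : ∀ x : X, (LinearMap.toMatrix (Pi.basisFun ℂ X) (Pi.basisFun ℂ X)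
      (shb_rep (G := G) (X := X) g)).diag x = if g • x = x then (1 : ℂ) else 0 := by
    intro x
    rw [Matrix.diag_apply, LinearMap.toMatrix_apply]
    have h3 : ((Pi.basisFun ℂ X).repr (shb_rep (G := G) (X := X) g ((Pi.basisFun ℂ X) x))) x =
        (Pi.single x (1 : ℂ) : X → ℂ) (g⁻¹ • x) := by
      simp [shb_rep]
    rw [h3, Pi.single_apply]
    have h4 : g⁻¹ • x = x ↔ g • x = x := by
      constructor
      · intro h
        rw [inv_smul_eq_iff] at h
        exact h.symm
      · intro h
        rw [inv_smul_eq_iff]
        exact h.symm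
    by_cases h5 : g • x = x
    · rw [if_pos h5, if_pos (h4.2 h5)]
    · rw [if_neg h5, if_neg (fun h => h5 (h4.1 h))]
  rw [Finset.sum_congr rfl (fun x _ => h2 x), Finset.sum_boole, Nat.card_eq_fintype_card,
    Fintype.card_subtype]

theorem shb_burnside {G X T : Type} [Group G] [Fintype G] [Fintype X] [MulAction G X] [Fintype T]
    (c : X → T) (hc : ∀ x y, c x = c y → ∃ g : G, g • x = y) :
    ∑ g : G, Nat.card {x : X // g • x = x} ≤ Nat.card T * Nat.card G := by
  classical
  have h1 := MulAction.sum_card_fixedBy_eq_card_orbits_mul_card_group G X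
  have h2 : ∑ g : G, Nat.card {x : X // g • x = x} =
      Fintype.card (MulAction.orbitRel.Quotient G X) * Fintype.card G := by
    rw [← h1]
    refine Finset.sum_congr rfl fun g _ => ?_
    rw [Nat.card_eq_fintype_card]
    exact Fintype.card_congr (Equiv.refl _)
  rw [h2, Nat.card_eq_fintype_card, Nat.card_eq_fintype_card]
  refine Nat.mul_le_mul_right _ ?_
  refine Fintype.card_le_of_injective (fun o => c (Quotient.out o)) ?_
  intro o o' h
  obtain ⟨g, hg⟩ := hc _ _ h
  have h3 : (Quotient.out o' : X) ∈ MulAction.orbit G (Quotient.out o) := ⟨g, hg⟩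
  have h4 : Quotient.mk (MulAction.orbitRel G X) (Quotient.out o') =
      Quotient.mk (MulAction.orbitRel G X) (Quotient.out o) := Quotient.sound h3
  rw [Quotient.out_eq, Quotient.out_eq] at h4
  exact h4.symm

theorem shb_trans {n : ℕ} {F : Type} [Field F] {ι : Type} [Finite ι]
    (u u' : ι → (Fin n → F)) (hu : LinearIndependent F u) (hu' : LinearIndependent F u') :
    ∃ g : GL (Fin n) F, ∀ i, g.1.mulVec (u i) = u' i := by
  classical
  let f := hu.linearCombinationEquiv.symm ≪≫ₗ hu'.linearCombinationEquiv
  have : FiniteDimensional F (Submodule.span F (Set.range u)) :=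
    FiniteDimensional.span_of_finite F (Set.finite_range _)
  obtain ⟨g, hg⟩ := Submodule.exists_linearEquiv_restrict_eq f
  have h1 : ∀ i, g (u i) = u' i := by
    intro i
    have h2 : (hu.linearCombinationEquiv (Finsupp.single i 1) : Fin n → F) = u i := by simp
    have h3 : (hu'.linearCombinationEquiv (Finsupp.single i 1) : Fin n → F) = u' i := by simp
    rw [← h2, ← hg, ← h3]
    simp [f]
  refine ⟨⟨LinearMap.toMatrix' (g : (Fin n → F) →ₗ[F] (Fin n → F)),
    LinearMap.toMatrix' (g.symm : (Fin n → F) →ₗ[F] (Fin n → F)), ?_, ?_⟩, ?_⟩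
  · rw [← LinearMap.toMatrix'_comp]
    simp
  · rw [← LinearMap.toMatrix'_comp]
    simp
  · intro i
    change (LinearMap.toMatrix' (g : (Fin n → F) →ₗ[F] (Fin n → F))).mulVec (u i) = u' i
    rw [LinearMap.toMatrix'_mulVec]
    exact h1 i

/-- the action of `GL_n(F)` on the vectors -/
@[reducible]
def shb_act (n : ℕ) (F : Type) [Field F] : MulAction (GL (Fin n) F) (Fin n → F) where
  smul g v := g.1.mulVec v
  one_smul v := by
    change (1 : Matrix (Fin n) (Fin n) F).mulVec v = v
    exact Matrix.one_mulVec v
  mul_smul g h v := by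
    change (g.1 * h.1).mulVec v = g.1.mulVec (h.1.mulVec v)
    exact (Matrix.mulVec_mulVec v g.1 h.1).symm

open Classical in
/-- the classes of the pairs of vectors -/
noncomputable def shb_cls {n : ℕ} {F : Type} [Field F] (p : (Fin n → F) × (Fin n → F)) :
    Option (Option (Option F)) :=
  if p.1 = 0 then (if p.2 = 0 then none else some none)
  else if h : ∃ c : F, p.2 = c • p.1 then some (some (some h.choose)) else some (some none)

theorem shb_orb {n : ℕ} {F : Type} [Field F] (p p' : (Fin n → F) × (Fin n → F))
    (h : shb_cls p = shb_cls p') :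
    ∃ g : GL (Fin n) F, g.1.mulVec p.1 = p'.1 ∧ g.1.mulVec p.2 = p'.2 := by
  classical
  have one : ∀ v w : Fin n → F, v ≠ 0 → w ≠ 0 → ∃ g : GL (Fin n) F, g.1.mulVec v = w := by
    intro v w hv hw
    obtain ⟨g, hg⟩ := shb_trans (fun _ : Unit => v) (fun _ : Unit => w)
      (LinearIndependent.of_subsingleton () hv) (LinearIndependent.of_subsingleton () hw)
    exact ⟨g, hg ()⟩
  obtain ⟨v, w⟩ := p
  obtain ⟨v', w'⟩ := p'
  unfold shb_cls at h
  simp only at h ⊢
  by_cases h1 : v = 0
  · by_cases h2 : v' = 0
    · subst h1
      subst h2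
      by_cases h3 : w = 0
      · by_cases h4 : w' = 0
        · subst h3
          subst h4
          exact ⟨1, by simp, by simp⟩
        · exfalso
          simp [h3, h4] at h
      · by_cases h4 : w' = 0
        · exfalso
          simp [h3, h4] at h
        · obtain ⟨g, hg⟩ := one w w' h3 h4
          exact ⟨g, by simp, hg⟩
    · exfalso
      by_cases h3 : w = 0
      · by_cases h5 : ∃ c : F, w' = c • v'
        · simp [h1, h2, h3, h5] at h
        · simp [h1, h2, h3, h5] at h
      · by_cases h5 : ∃ c : F, w' = c • v'
        · simp [h1, h2, h3, h5] at h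
        · simp [h1, h2, h3, h5] at h
  · by_cases h2 : v' = 0
    · exfalso
      by_cases h3 : w' = 0
      · by_cases h5 : ∃ c : F, w = c • v
        · simp [h1, h2, h3, h5] at h
        · simp [h1, h2, h3, h5] at h
      · by_cases h5 : ∃ c : F, w = c • v
        · simp [h1, h2, h3, h5] at h
        · simp [h1, h2, h3, h5] at h
    · rw [if_neg h1, if_neg h2] at h
      by_cases h5 : ∃ c : F, w = c • v
      · by_cases h6 : ∃ c : F, w' = c • v'
        · rw [dif_pos h5, dif_pos h6] at h
          have h7 : h5.choose = h6.choose := by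
            simpa using h
          obtain ⟨g, hg⟩ := one v v' h1 h2
          refine ⟨g, hg, ?_⟩
          rw [h5.choose_spec, Matrix.mulVec_smul, hg, h7]
          exact h6.choose_spec.symm
        · exfalso
          rw [dif_pos h5, dif_neg h6] at h
          simp at h
      · by_cases h6 : ∃ c : F, w' = c • v'
        · exfalso
          rw [dif_neg h5, dif_pos h6] at h
          simp at h
        · have li : ∀ a b : Fin n → F, a ≠ 0 → (¬ ∃ c : F, b = c • a) →
              LinearIndependent F ![a, b] := by
            intro a b ha hb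
            rw [LinearIndependent.pair_iff' ha]
            intro c hc
            exact hb ⟨c, hc.symm⟩
          obtain ⟨g, hg⟩ := shb_trans ![v, w] ![v', w'] (li v w h1 h5) (li v' w' h2 h6)
          exact ⟨g, by simpa using hg 0, by simpa using hg 1⟩

theorem t_SHB : S_SHB := by
  intro n F _ _ _
  let _ := shb_act n F
  have hs : ∀ (g : GL (Fin n) F) (v : Fin n → F), g • v = g.1.mulVec v := fun g v => rfl
  have hfx : ∀ g : GL (Fin n) F, fx g = Nat.card {v : Fin n → F // g • v = v} := fun g => rfl
  constructor
  · have h1 := isChr_of_rep (shb_rep (G := GL (Fin n) F) (X := Fin n → F))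
    have h2 : (shb_rep (G := GL (Fin n) F) (X := Fin n → F)).character =
        fun g : GL (Fin n) F => (fx g : ℂ) := by
      funext g
      rw [shb_char]
      rfl
    rw [h2] at h1
    exact h1
  · have h1 : ∑ g : GL (Fin n) F, Nat.card {p : (Fin n → F) × (Fin n → F) // g • p = p} ≤
        Nat.card (Option (Option (Option F))) * Nat.card (GL (Fin n) F) := by
      refine shb_burnside (fun p => shb_cls p) ?_
      intro x y h
      obtain ⟨g, h2, h3⟩ := shb_orb x y h
      exact ⟨g, Prod.ext h2 h3⟩
    have h2 : Nat.card (Option (Option (Option F))) = Nat.card F + 3 := by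
      simp [Nat.card_eq_fintype_card]
    rw [h2] at h1
    refine le_trans (le_of_eq ?_) h1
    refine Finset.sum_congr rfl fun g _ => ?_
    rw [hfx, pow_two, ← Nat.card_prod]
    refine Nat.card_congr ?_
    exact
      { toFun := fun p => ⟨(p.1.1, p.2.1), Prod.ext p.1.2 p.2.2⟩
        invFun := fun p => (⟨p.1.1, congrArg Prod.fst p.2⟩, ⟨p.1.2, congrArg Prod.snd p.2⟩)
        left_inv := fun p => rfl
        right_inv := fun p => rfl }

end FLZ
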