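import Mathlib
import Pool.Agent.FLZ.StZ
import Pool.Agent.SRJ.PVL

/-!
# SHC: an irreducible constituent with a large value (helper38)
-/

set_option autoImplicit false

namespace FLZ

open RSF FL0 SRJ Polynomial Pool.Agent.Lib_helper13

noncomputable section

theorem t_SHC : S_SHC := by
  classical
  intro G _ _ π N hπ hN hπ1 hsum x
  have hG0 : (Nat.card G : ℂ) ≠ 0 := natCard_ne_zero
  have hGpos : (0 : ℝ) < (Nat.card G : ℝ) := by exact_mod_cast Nat.card_pos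
  -- the multiplicities
  have hex : ∀ X : G → ℂ, ∃ m : ℕ, X ∈ irrF G → ip π X = m := by
    intro X
    by_cases hX : X ∈ irrF G
    · obtain ⟨m, hm⟩ := hπ.exists_ip (mem_irrF.1 hX).isChr
      exact ⟨m, fun _ => hm⟩
    · exact ⟨0, fun h => absurd h hX⟩
  choose c hc using hex
  have hexp : ∀ y, π y = ∑ X ∈ irrF G, (c X : ℂ) * X y := by
    intro y
    have h := congrFun (class_fn_expand π fun g x => hπ.conj_eq g x) y
    rw [h]
    exact Finset.sum_congr rfl fun X hX => by rw [hc X hX]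
  -- Parseval
  have hpar := pvl_par π fun g x => hπ.conj_eq g x
  have hterm : ∀ X ∈ irrF G, ‖∑ g, π g * X g⁻¹‖ ^ 2 = (Nat.card G : ℝ) ^ 2 * (c X : ℝ) ^ 2 := by
    intro X hX
    have h := hc X hX
    rw [ip, div_eq_iff hG0] at h
    rw [h, norm_mul, Complex.norm_natCast, Complex.norm_natCast]
    ring
  rw [Finset.sum_congr rfl hterm, ← Finset.mul_sum] at hpar
  have hcs : ∑ X ∈ irrF G, (c X : ℝ) ^ 2 ≤ N := by
    have h1 : (Nat.card G : ℝ) ^ 2 * ∑ X ∈ irrF G, (c X : ℝ) ^ 2 ≤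
        (Nat.card G : ℝ) ^ 2 * N := by
      rw [← hpar]
      calc (∑ g, ‖π g‖ ^ 2) * (Nat.card G : ℝ)
          ≤ ((N : ℝ) * Nat.card G) * Nat.card G := mul_le_mul_of_nonneg_right hsum hGpos.le
        _ = (Nat.card G : ℝ) ^ 2 * N := by ring
    exact le_of_mul_le_mul_left h1 (by positivity)
  have hcN : ∑ X ∈ irrF G, (c X : ℝ) ≤ N := by
    refine le_trans (Finset.sum_le_sum fun X _ => ?_) hcs
    have : (c X) ≤ (c X) ^ 2 := Nat.le_self_pow two_ne_zero _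
    exact_mod_cast this
  -- the degrees
  have hdeg : ∀ X ∈ irrF G, 0 ≤ (X 1).re := by
    intro X hX
    obtain ⟨n, _, hn⟩ := (mem_irrF.1 hX).exists_degree
    rw [hn, Complex.natCast_re]
    exact Nat.cast_nonneg _
  have hle : ∀ X ∈ irrF G, c X ≠ 0 → (X 1).re ≤ (π 1).re := by
    intro X hX hcX
    have h1 : (π 1).re = ∑ Y ∈ irrF G, (c Y : ℝ) * (Y 1).re := by
      rw [hexp 1, Complex.re_sum]
      refine Finset.sum_congr rfl fun Y _ => ?_
      rw [Complex.mul_re, Complex.natCast_re, Complex.natCast_im, zero_mul, sub_zero]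
    rw [h1]
    have h2 : (1 : ℝ) ≤ (c X : ℝ) := by exact_mod_cast Nat.one_le_iff_ne_zero.2 hcX
    calc (X 1).re ≤ (c X : ℝ) * (X 1).re := le_mul_of_one_le_left (hdeg X hX) h2
      _ ≤ ∑ Y ∈ irrF G, (c Y : ℝ) * (Y 1).re :=
        Finset.single_le_sum (f := fun Y => (c Y : ℝ) * (Y 1).re)
          (fun Y hY => mul_nonneg (Nat.cast_nonneg _) (hdeg Y hY)) hX
  -- the set of the constituents is not empty
  have hne : ∃ X ∈ irrF G, c X ≠ 0 := by
    by_contra hcon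
    push Not at hcon
    apply hπ1
    rw [hexp 1]
    exact Finset.sum_eq_zero fun X hX => by rw [hcon X hX, Nat.cast_zero, zero_mul]
  have hnorm : ‖π x‖ ≤ ∑ X ∈ irrF G, (c X : ℝ) * ‖X x‖ := by
    rw [hexp x]
    refine (norm_sum_le _ _).trans_eq (Finset.sum_congr rfl fun X _ => ?_)
    rw [norm_mul, Complex.norm_natCast]
  have hN0 : (0 : ℝ) < N := by exact_mod_cast hN
  by_contra hcon
  push Not at hcon
  have hlt : ∀ X ∈ irrF G, c X ≠ 0 → (N : ℝ) * ‖X x‖ < ‖π x‖ := fun X hX hcX =>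
    hcon X (mem_irrF.1 hX) (hle X hX hcX)
  obtain ⟨X₀, hX₀, hc₀⟩ := hne
  have h1 : ∑ X ∈ irrF G, (c X : ℝ) * (N * ‖X x‖) < ∑ X ∈ irrF G, (c X : ℝ) * ‖π x‖ := by
    refine Finset.sum_lt_sum (fun X hX => ?_) ⟨X₀, hX₀, ?_⟩
    · by_cases h : c X = 0
      · rw [h, Nat.cast_zero, zero_mul, zero_mul]
      · exact mul_le_mul_of_nonneg_left (hlt X hX h).le (Nat.cast_nonneg _)
    · exact mul_lt_mul_of_pos_left (hlt X₀ hX₀ hc₀)
        (by exact_mod_cast Nat.pos_of_ne_zero hc₀)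
  have h2 : ∑ X ∈ irrF G, (c X : ℝ) * ‖π x‖ ≤ N * ‖π x‖ := by
    rw [← Finset.sum_mul]
    exact mul_le_mul_of_nonneg_right hcN (norm_nonneg _)
  have h3 : (N : ℝ) * ‖π x‖ ≤ ∑ X ∈ irrF G, (c X : ℝ) * (N * ‖X x‖) := by
    calc (N : ℝ) * ‖π x‖ ≤ N * ∑ X ∈ irrF G, (c X : ℝ) * ‖X x‖ :=
          mul_le_mul_of_nonneg_left hnorm hN0.le
      _ = ∑ X ∈ irrF G, (c X : ℝ) * (N * ‖X x‖) := by
        rw [Finset.mul_sum]
        exact Finset.sum_congr rfl fun X _ => by ring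
  linarith

end

end FLZ
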