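import Pool.Agent.FLZ.StZ
import Pool.Agent.FLC.MN

/-!
# SHD: the exponent of the character bound is best possible (helper33)
-/

set_option autoImplicit false

namespace FLZ

open RSF FL0 SRJ Polynomial Pool.Agent.Lib_helper13

noncomputable section

theorem shd_fx_one {n : ℕ} {F : Type} [Field F] [Finite F] :
    fx (1 : GL (Fin n) F) = Nat.card F ^ n := by
  unfold fx
  have h : ∀ v : Fin n → F, (1 : GL (Fin n) F).1.mulVec v = v := fun v => by
    rw [Units.val_one, Matrix.one_mulVec]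
  rw [Nat.card_congr (Equiv.subtypeUnivEquiv h), Nat.card_fun, Nat.card_fin]

/-- the numbers -/
theorem shd_real (q x M : ℝ) (m k : ℕ) (ε : ℝ) (hq : 2 ≤ q) (hm : 2 ≤ m) (hε : 0 < ε)
    (hk : 4 ≤ k) (hkε : 3 + 3 / ε ≤ k) (hM : M ≤ q ^ (m * k)) (hx : q ^ k ≤ (q + 3) * x)
    (hxM : x ≤ M) : 1 < M ∧ M ^ (1 / (m : ℝ) - ε) ≤ x := by
  have hq0 : 0 < q := by linarith
  have hq3 : q + 3 ≤ q ^ 3 := by nlinarith [sq_nonneg (q - 2), mul_nonneg (by linarith : 0 ≤ q) (sq_nonneg (q - 2))]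
  obtain ⟨l, rfl⟩ : ∃ l, k = l + 3 := ⟨k - 3, by omega⟩
  have hl : 1 ≤ l := by omega
  have hx0 : 0 < x := by
    by_contra hcon
    rw [not_lt] at hcon
    have h1 : 0 < q ^ (l + 3) := pow_pos hq0 _
    nlinarith
  have hqx : q ^ l ≤ x := by
    have h1 : q ^ 3 * q ^ l ≤ q ^ 3 * x := by
      calc q ^ 3 * q ^ l = q ^ (l + 3) := by ring
        _ ≤ (q + 3) * x := hx
        _ ≤ q ^ 3 * x := mul_le_mul_of_nonneg_right hq3 hx0.le
    exact le_of_mul_le_mul_left h1 (pow_pos hq0 3)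
  have hql : q ≤ q ^ l := by
    calc q = q ^ 1 := (pow_one q).symm
      _ ≤ q ^ l := pow_le_pow_right₀ (by linarith) hl
  have hM1 : 1 < M := by linarith
  have hM0 : 0 < M := by linarith
  refine ⟨hM1, ?_⟩
  have hm0 : (0 : ℝ) < (m : ℝ) := by
    have : (2 : ℝ) ≤ (m : ℝ) := by exact_mod_cast hm
    linarith
  have h1 : M ^ (1 / (m : ℝ)) ≤ q ^ (l + 3) := by
    calc M ^ (1 / (m : ℝ)) ≤ (q ^ (m * (l + 3))) ^ (1 / (m : ℝ)) :=
          Real.rpow_le_rpow hM0.le hM (by positivity)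
      _ = q ^ (l + 3) := by
          rw [← Real.rpow_natCast q (m * (l + 3)), ← Real.rpow_mul hq0.le,
            ← Real.rpow_natCast q (l + 3)]
          congr 1
          push_cast
          field_simp
  have h2 : q ^ 3 ≤ M ^ ε := by
    have h3 : (3 : ℝ) ≤ l * ε := by
      have h4 : 3 / ε ≤ l := by
        push_cast at hkε
        linarith
      calc (3 : ℝ) = 3 / ε * ε := by field_simp
        _ ≤ l * ε := mul_le_mul_of_nonneg_right h4 hε.le
    calc q ^ 3 = q ^ ((3 : ℕ) : ℝ) := (Real.rpow_natCast q 3).symm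
      _ ≤ q ^ (l * ε) := Real.rpow_le_rpow_of_exponent_le (by linarith) (by exact_mod_cast h3)
      _ = (q ^ l) ^ ε := by rw [Real.rpow_mul hq0.le, Real.rpow_natCast]
      _ ≤ M ^ ε := Real.rpow_le_rpow (pow_pos hq0 _).le (hqx.trans hxM) hε.le
  rw [Real.rpow_sub hM0, div_le_iff₀ (Real.rpow_pos_of_pos hM0 _)]
  calc M ^ (1 / (m : ℝ)) ≤ q ^ (l + 3) := h1
    _ ≤ (q + 3) * x := hx
    _ ≤ q ^ 3 * x := mul_le_mul_of_nonneg_right hq3 hx0.le
    _ ≤ M ^ ε * x := mul_le_mul_of_nonneg_right h2 hx0.le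
    _ = x * M ^ ε := mul_comm _ _

theorem t_SHD : M_SHD := by
  intro hA hB hC m hm ε hε
  refine ⟨m * (max 4 ⌈3 + 3 / ε⌉₊), ?_⟩
  rintro n hn ⟨k, rfl⟩ F _ _ _
  have hk : max 4 ⌈3 + 3 / ε⌉₊ ≤ k := Nat.le_of_mul_le_mul_left hn (by omega)
  have hk4 : 4 ≤ k := (le_max_left _ _).trans hk
  have hkε : 3 + 3 / ε ≤ k :=
    (Nat.le_ceil _).trans (by exact_mod_cast (le_max_right _ _).trans hk)
  obtain ⟨x, hx1, hx2, hx3⟩ := hA m k F (by omega)
  obtain ⟨hchr, hsum⟩ := hB (m * k) F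
  have hq : 2 ≤ Nat.card F := Finite.one_lt_card
  have hone : (((fx (1 : GL (Fin (m * k)) F) : ℕ) : ℂ)) = ((Nat.card F : ℕ) : ℂ) ^ (m * k) := by
    rw [shd_fx_one]
    push_cast
    rfl
  obtain ⟨X, hX, hX1, hX2⟩ := hC (GL (Fin (m * k)) F) (fun g => (fx g : ℂ)) (Nat.card F + 3) hchr
    (by omega) (by
      show (((fx (1 : GL (Fin (m * k)) F) : ℕ) : ℂ)) ≠ 0
      rw [hone]
      exact pow_ne_zero _ (by exact_mod_cast (by omega : Nat.card F ≠ 0))) (by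
      have h1 : ∀ g : GL (Fin (m * k)) F, ‖((fx g : ℕ) : ℂ)‖ ^ 2 = ((fx g ^ 2 : ℕ) : ℝ) := by
        intro g
        rw [Complex.norm_natCast]
        push_cast
        rfl
      simp only [h1]
      rw [← Nat.cast_sum]
      exact_mod_cast hsum) x
  have h1 : (X 1).re ≤ (Nat.card F : ℝ) ^ (m * k) := by
    refine hX1.trans (le_of_eq ?_)
    show (((fx (1 : GL (Fin (m * k)) F) : ℕ) : ℂ)).re = _
    rw [Complex.natCast_re, shd_fx_one]
    push_cast
    rfl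
  have h2 : (Nat.card F : ℝ) ^ k ≤ ((Nat.card F : ℝ) + 3) * ‖X x‖ := by
    have h3 : ‖((fx x : ℕ) : ℂ)‖ ≤ ((Nat.card F + 3 : ℕ) : ℝ) * ‖X x‖ := hX2
    rw [Complex.norm_natCast, hx3] at h3
    push_cast at h3
    exact h3
  obtain ⟨d, hd0, hd⟩ := hX.exists_degree
  have h3 : ‖X x‖ ≤ (X 1).re := by
    refine (FLC.mn_norm hX.isChr x).trans (le_of_eq ?_)
    rw [hd, Complex.norm_natCast, Complex.natCast_re]
  obtain ⟨h4, h5⟩ := shd_real (Nat.card F) ‖X x‖ (X 1).re m k ε (by exact_mod_cast hq) hm hε hk4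
    hkε h1 h2 h3
  refine ⟨x, hx1, ?_, X, hX, ?_, h5⟩
  · rw [hx2]
    congr 1
    rw [mul_pow, pow_two m, mul_assoc, Nat.mul_div_cancel_left _ (by omega)]
  · intro h6
    rw [h6, Complex.one_re] at h4
    exact lt_irrefl _ h4

end

end FLZ
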