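import Pool.Agent.FLX.FinX
import Pool.Agent.FLZ.SHA
import Pool.Agent.FLZ.SHB
import Pool.Agent.FLZ.SHC
import Pool.Agent.FLZ.SHD

/-!
# A best possible character bound for `GL_n(q)`, all `q`: the theorem
-/

namespace FLZ

open RSF FL0 SRJ Polynomial Pool.Agent.Lib_helper13

theorem a_SHD : S_SHD := t_SHD t_SHA t_SHB t_SHC

/-- **the bound and its sharpness** -/
theorem a_CB : ∀ m : ℕ, 2 ≤ m → ∀ ε : ℝ, 0 < ε → ∃ r : ℕ, ∀ n : ℕ, r ≤ n →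
    ∀ (F : Type) [Field F] [Fintype F] [DecidableEq F],
      (∀ X : GL (Fin n) F → ℂ, IsIrr X → ∀ g₀ : F[X], g₀.Monic → g₀.natDegree = m →
        ∀ x : GL (Fin n) F, aeval (x : Matrix (Fin n) (Fin n) F) g₀ = 0 →
          ‖X x‖ ≤ ((cN (x : Matrix (Fin n) (Fin n) F) : ℝ) *
            (Nat.card F : ℝ) ^ (-((n : ℝ) ^ 2 / m))) ^ (1 / 2 : ℝ) *
              (X 1).re ^ (1 / (m : ℝ) + ε)) ∧
      (m ∣ n → ∃ x : GL (Fin n) F, x ^ m = 1 ∧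
        cN (x : Matrix (Fin n) (Fin n) F) = Nat.card F ^ (n ^ 2 / m) ∧
        ∃ X : GL (Fin n) F → ℂ, IsIrr X ∧ X 1 ≠ 1 ∧
          (X 1).re ^ (1 / (m : ℝ) - ε) ≤ ‖X x‖) := by
  intro m hm ε hε
  obtain ⟨r₁, h₁⟩ := FLX.a_XMB m hm ε hε
  obtain ⟨r₂, h₂⟩ := a_SHD m hm ε hε
  refine ⟨max r₁ r₂, fun n hn F _ _ _ => ⟨?_, ?_⟩⟩
  · intro X hX g₀ hg hgm x hx
    by_cases hX1 : X 1 = 1
    · have h3 : ‖X x‖ ≤ 1 := by
        refine (FLC.mn_norm hX.isChr x).trans (le_of_eq ?_)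
        rw [hX1, norm_one]
      have h4 := FLX.xmb_delta FLX.t_TYP m (by omega) g₀ hg hgm
        (x : Matrix (Fin n) (Fin n) F) hx Nat.card_pos
      rw [hX1, Complex.one_re, Real.one_rpow, mul_one]
      exact h3.trans (Real.one_le_rpow h4 (by norm_num))
    · exact h₁ n ((le_max_left _ _).trans hn) F X hX hX1 g₀ hg hgm x hx
  · intro hmn
    exact h₂ n ((le_max_right _ _).trans hn) hmn F

end FLZ
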