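import Pool.Agent.FLX.FinX
import Pool.Agent.FLY.CLE
import Pool.Agent.FLY.HMZ
import Pool.Agent.FLY.CYZ
import Pool.Agent.FLZ.SHA
import Pool.Agent.FLZ.SHB
import Pool.Agent.FLZ.SHC
import Pool.Agent.FLZ.SHD

/-!
# A sharp character bound for `GL_n(q)`, all `q`: both parts (helper4)
-/

namespace FLZ

open RSF FL0 SRJ Polynomial Pool.Agent.Lib_helper13

theorem a_SHD : S_SHD := t_SHD t_SHA t_SHB t_SHC

theorem finx_cN {F : Type} [Field F] {n : ℕ} (A : Matrix (Fin n) (Fin n) F) :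
    FLY.Cm (Matrix.toLinAlgEquiv' A) = SRJ.cN A := by
  unfold SRJ.cN FLY.Cm
  refine (Nat.card_congr (Equiv.subtypeEquiv
    (Matrix.toLinAlgEquiv' : Matrix (Fin n) (Fin n) F ≃ₐ[F] _).toEquiv ?_)).symm
  intro c
  change c * A = A * c ↔ Matrix.toLinAlgEquiv' c * Matrix.toLinAlgEquiv' A =
    Matrix.toLinAlgEquiv' A * Matrix.toLinAlgEquiv' c
  rw [← map_mul, ← map_mul]
  exact (Matrix.toLinAlgEquiv' : Matrix (Fin n) (Fin n) F ≃ₐ[F] _).injective.eq_iff.symm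

/-- the centralizer of an element killed by a polynomial of degree `m` is large -/
theorem finx_large {F : Type} [Field F] [Finite F] {n m : ℕ} (hm : 1 ≤ m) {g : F[X]}
    (hg : g.Monic) (hgd : g.natDegree = m) (A : Matrix (Fin n) (Fin n) F) (hA : aeval A g = 0) :
    (Nat.card F : ℝ) ^ ((n : ℝ) ^ 2 / m) ≤ SRJ.cN A := by
  have hCLE : FLY.S_CLE := FLY.t_CLE (FLY.t_HMZ FLY.t_CYZ) SRJ.a_AUL
  have h1 := ((hCLE F (Fin n → F) g hg (by omega)).2 (Matrix.toLinAlgEquiv' A) (by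
    have := aeval_algHom_apply
      (Matrix.toLinAlgEquiv' : Matrix (Fin n) (Fin n) F ≃ₐ[F] _).toAlgHom A g
    change aeval ((Matrix.toLinAlgEquiv' : Matrix (Fin n) (Fin n) F ≃ₐ[F] _).toAlgHom A) g = 0
    rw [this, hA, map_zero])).2
  rw [finx_cN, Module.finrank_fin_fun, hgd] at h1
  exact h1

/-- **the character bound, all irreducible characters** -/
theorem a_XMB1 : ∀ m : ℕ, 2 ≤ m → ∀ ε : ℝ, 0 < ε → ∃ r : ℕ, ∀ n : ℕ, r ≤ n →
    ∀ (F : Type) [Field F] [Finite F] (X : GL (Fin n) F → ℂ), IsIrr X →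
    ∀ g : F[X], g.Monic → g.natDegree = m → ∀ x : GL (Fin n) F,
      aeval (x : Matrix (Fin n) (Fin n) F) g = 0 →
      ‖X x‖ ≤ ((cN (x : Matrix (Fin n) (Fin n) F) : ℝ) *
          (Nat.card F : ℝ) ^ (-((n : ℝ) ^ 2 / m))) ^ (1 / 2 : ℝ) * (X 1).re ^ (1 / (m : ℝ) + ε) := by
  intro m hm ε hε
  obtain ⟨r, hr⟩ := FLX.a_XMB m hm ε hε
  refine ⟨r, fun n hn F _ _ X hX g hg hgd x hx => ?_⟩
  classical
  have := Fintype.ofFinite F
  by_cases hX1 : X 1 = 1
  · have h1 := FLC.mn_norm hX.isChr x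
    rw [hX1, norm_one] at h1
    refine h1.trans ?_
    rw [hX1, Complex.one_re, Real.one_rpow, mul_one]
    have hq : (0 : ℝ) < Nat.card F := by exact_mod_cast Nat.card_pos
    have h2 := finx_large (by omega) hg hgd (x : Matrix (Fin n) (Fin n) F) hx
    refine Real.one_le_rpow ?_ (by norm_num)
    rw [Real.rpow_neg hq.le, ← div_eq_mul_inv, one_le_div (Real.rpow_pos_of_pos hq _)]
    exact h2
  · exact hr n hn F X hX hX1 g hg hgd x hx

end FLZ
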